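import Pool.Agent.K3h30.NS.Main
import Pool.Agent.X303.RegDefs

/-!
# The cycle maps on the higher Chow groups of the varieties generated by the abelian varieties of almost
all isogeny classes in every Newton stratum

Fix a prime `p`, a nonempty finite set `κ`, dimensions `g i ≥ 1` and, for each `i`, a symmetric Newton
polygon with slopes `s i j` and `1 - s i j` (`j < g i`), where `0 ≤ s i j ≤ 1 / 2`, whose break points
are integral and which is not the supersingular one (`IsNewton (s i)`, `s i j < 1 / 2` for some `j`). By
the theorem of Honda and Tate `Stratum g s p a` is the set of the families `(A_i)` of isogeny classes of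
abelian varieties of dimension `g i` over the field with `q = p ^ a` elements that have these Newton
polygons; it consists of the families `P` of their Frobenius polynomials.

Over an algebraic closure of the field with `p` elements each abelian variety is isogenous to the
reduction of an abelian variety of CM type (Honda, Tate). So an abelian variety over the field with
`p ^ b` elements is modelled by `RedAV`: a finite product of CM types `(E k, Φ k)` with Weil numbers
`π k ∈ E k` that satisfy the formula of Shimura and Taniyama. We fix an isomorphism `ν` of the algebraic
closure of `ℚ_p` with `ℂ`. For a family `P` let `𝒞 (P)` (`OfPolys a P`) be the class of the abelian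
varieties `Y` (over any finite extension or subfield of the field with `q` elements) each of whose factors
is supersingular or isogenous, over an algebraic closure, to a factor of one of the `A_i`: some power of
its Frobenius endomorphism `π k` is, for a complex embedding of `E k`, a power of a root `z` of some
`P i`. So `Y` is, over an algebraic closure, isogenous to a product of powers of factors of the `A_i` and
of a supersingular abelian variety.

`Homology Ω V` are data of motivic homology `M X i j = H_i^M(X, ℚ(j)) = CH_j(X, i - 2 j) ⊗ ℚ` and of
`ℓ`-adic homology `E X i j = H_i(X, ℚ_ℓ(j))` (coefficients extended to `Ω`) of schemes `X` of finite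
type over a finite field (the elements of `V`), with the Frobenius and the regulator. For a family `P`
let `𝒢 (P)` be the smallest class (`Generated`) of such schemes that contains those with the homology
groups of abelian varieties in `𝒞 (P)` (`IsAbelianOfPolys`), that is closed under direct summands of
finite sums of twists of motives, and that contains all of a closed subscheme `Z` of `X`, `X` and
`X ∖ Z` if it contains two of them. It contains for instance all products of varieties in `𝒞 (P)`, all
products of curves with Jacobians in `𝒞 (P)` and of open subsets of such curves, symmetric powers of
them, and the singular and the open varieties with a stratification by such varieties.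

A family `P` is good (`Holds p a P`) if for all smooth `X` in `𝒢 (P)`, of pure dimension `d`, and all
`i` and `j` the cycle map (the regulator) `H^i(X, ℚ(j)) → H^i(X̄, ℚ_ℓ(j))`, that is
`M X (2 d - i) (d - j) → E X (2 d - i) (d - j)`, is injective, also after extension of scalars
(`RegInjective`), its image spans the invariants of the Frobenius (`RegSurjective`), and the eigenvalue
one of the Frobenius is semisimple (`FrobSemisimple`).

**Theorem.** As `a → ∞` the number of the families in `Stratum g s p a` tends to infinity, and the
proportion of the good families tends to one.

Properties of the theory of cycles that are used for the abelian varieties (`IsChow`, `IsMotivic`):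
Poincaré duality, the formal properties of correspondences, the nilpotence of homologically trivial
correspondences (Kimura), the operation of the Frobenius endomorphism on higher Chow groups, the
vanishing of the higher rational `K`-groups of a finite field (Quillen), and the algebraicity of the
classes in `Alg` (of which only products of classes of divisors matter here, theorem of Tate). The
passage from the Tate conjecture to all degrees and to the class `Generated` is due to Soulé, Geisser,
Kahn and Jannsen.

The proof: for almost all families in the stratum each pair `z`, `q / z` of complex conjugate Frobenius
eigenvalues of the `A_i` can be interchanged by an automorphism of `ℂ` that fixes all the other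
eigenvalues of all the `A_i` (large sieve over the residue classes of the coefficients of the trace
polynomials; the existence and the counting of the families is in the starting files,
`MP_ee618e_ag.NewtonStrata`). So there are only the trivial multiplicative relations between the
eigenvalues (`Neat`), and this determines all relations between the Frobenius eigenvalues of each `Y`
in `𝒞 (P)` (`elementary_of_neat`).
-/

set_option autoImplicit false

namespace Pool.Agent.Results.MP_b52861_ag.NewtonStrata

open Polynomial Pool.Agent.K3h30.NS Pool.Agent.W495.TA Pool.Agent.W495.FM Pool.Agent.X303.TBDual

/-- The cycle maps in all degrees of all varieties generated by abelian varieties whose factors are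
supersingular or factors of the abelian varieties with Frobenius polynomials `P i` are injective and
onto the invariants of the Frobenius, whose eigenvalue one is semisimple. -/
def Holds {κ : Type} (p : ℕ) [Fact p.Prime] (a : ℕ) (P : κ → ℤ[X]) : Prop :=
  ∀ (ν : PadicAlgCl p ≃+* ℂ) (Ω : Type) [Field Ω] [IsAlgClosed Ω] [CharZero Ω] (V : Type)
    (T : Homology Ω V), IsHomology T → ∀ X : V, Generated T (IsAbelianOfPolys ν a P T) X →
      ∀ d i j : ℤ, RegInjective T X (2 * d - i) (d - j) ∧ RegSurjective T X (2 * d - i) (d - j) ∧
        FrobSemisimple T X (2 * d - i) (d - j)

theorem holds_of {κ : Type} {p : ℕ} [Fact p.Prime] {a : ℕ} {P : κ → ℤ[X]}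
    (h : ∀ (ν : PadicAlgCl p ≃+* ℂ) (Y : RedAV p ν), OfPolys a P Y → ∃ Z : RedAV p ν,
      Pool.Agent.TH117.BL.HasElementaryRelations Z ∧
        Pool.Agent.TH117.BL.IsPowersTimesSupersingular Z Y) : Holds p a P :=
  fun ν _ _ _ _ _ _ hT _ hX _ _ _ => ⟨(tb_polys (h ν) hT hX _ _).2.1, (tb_polys (h ν) hT hX _ _).1,
    (tb_polys (h ν) hT hX _ _).2.2⟩

/-- **The cycle maps on the higher Chow groups of all varieties generated by the abelian varieties of
almost all isogeny classes in every Newton stratum are injective, and surjective onto the Frobenius
invariants.** -/
theorem result {κ : Type} [Fintype κ] [Nonempty κ] (p : ℕ) [Fact p.Prime]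
    -- dimensions and Newton polygons
    (g : κ → ℕ) (hg : ∀ i, 1 ≤ g i) (s : ∀ i, Fin (g i) → ℚ) (hs : ∀ i, IsNewton (s i))
    (hss : ∀ i, ∃ j, s i j < 1 / 2)
    -- a number of families of isogeny classes, a proportion of exceptions
    (N : ℕ) (ε : ℝ) (hε : 0 < ε) :
    ∃ a₀ : ℕ, ∀ a, a₀ ≤ a →
      (Stratum g s p a).Finite ∧ N ≤ (Stratum g s p a).ncard ∧
      ({P ∈ Stratum g s p a | ¬ Holds p a P}.ncard : ℝ) ≤ ε * ((Stratum g s p a).ncard : ℝ) :=
  almost_all p g hg s hs hss (Holds p) (fun _ _ h => holds_of h) N ε hε

end Pool.Agent.Results.MP_b52861_ag.NewtonStrata
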